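import Pool.Agent.P8H28.QF.Defs

/-!
# Definitions: the symmetric square
-/

namespace Pool.Agent.P8H28.QS

open Pool.Agent.W528.ZC MvPolynomial Pool.Agent.P8H28.QF

variable {ι : Type} [Fintype ι] [DecidableEq ι]

/-- The symmetric matrices in this sense (`M` does not change if the two indices of a row or of a
column are exchanged) are the endomorphisms of the symmetric square of the space of vectors with
coordinates in `ι`. -/
def OnSymmetricSquare {k : Type} [Field k] (M : Matrix (Fin 2 → ι) (Fin 2 → ι) k) : Prop :=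
  ∀ (σ : Equiv.Perm (Fin 2)) (a b : Fin 2 → ι), M (a ∘ σ) b = M a b ∧ M a (b ∘ σ) = M a b

/-- The rational matrices in `𝔻` form a `ℚ`-form of the space of the endomorphisms of the symmetric
square over `k` that commute with a subgroup of finite index. -/
def IsFormOfSymmetricSquare {k : Type} [Field k] [Algebra ℚ k] {Γ : Type} [Group Γ]
    (ρ : Γ →* Matrix ι ι k) (𝔻 : Set (Matrix (Fin 2 → ι) (Fin 2 → ι) ℚ)) : Prop :=
  ∀ M : Matrix (Fin 2 → ι) (Fin 2 → ι) k,
    OnSymmetricSquare M ∧ VirtuallyCommutes (tensRep 2 ρ) M ↔ M ∈ Submodule.span k (mapQ k '' 𝔻)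

end Pool.Agent.P8H28.QS
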