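import Pool.Agent.P8H28.QS.Ide

/-!
# The comparison
-/

set_option linter.unusedSectionVars false

namespace Pool.Agent.P8H28.QS

open Module MvPolynomial Pool.Agent.P8H28.SQ Pool.Agent.P8H28.QF
open Pool.Agent.W528.ZC (toM toM_mul toM_one I0 mem_I0 InZ Lg WHodge PinkGen Lg_comm CR)
open Pool.Agent.H204R3.GP (HasProj)

noncomputable section

variable {K : Type} [Field K] {ι : Type} [Fintype ι] [DecidableEq ι]
  [CharZero K] {Γ : Type} [Group Γ] {R : Representation K Γ (ι → K)}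
  {ω : (ι → K) →ₗ[K] (ι → K) →ₗ[K] K}

theorem toM_br (x y : Module.End K (ι → K)) : toM (x * y - y * x) = toM x * toM y - toM y * toM x := by
  rw [← toM_mul, ← toM_mul]
  exact map_sub _ _ _

theorem sim_br {Ψ : Matrix ι ι K} {c c' : K} {x y : Matrix ι ι K} (hx : IsSim Ψ c x)
    (hy : IsSim Ψ c' y) : IsSim Ψ 0 (x * y - y * x) := by
  have h1 : x.transpose * Ψ = c • Ψ - Ψ * x := eq_sub_of_add_eq hx
  have h2 : y.transpose * Ψ = c' • Ψ - Ψ * y := eq_sub_of_add_eq hy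
  unfold IsSim
  rw [Matrix.transpose_sub, Matrix.transpose_mul, Matrix.transpose_mul, sub_mul, mul_assoc,
    mul_assoc, h1, h2, mul_sub, mul_sub, mul_smul_comm, mul_smul_comm, ← mul_assoc, ← mul_assoc,
    h1, h2, sub_mul, sub_mul, smul_mul_assoc, smul_mul_assoc, smul_sub, smul_sub, mul_sub,
    mul_assoc, mul_assoc, smul_comm c c', zero_smul]
  abel

theorem sim_add {Ψ : Matrix ι ι K} {c c' : K} {x y : Matrix ι ι K} (hx : IsSim Ψ c x)
    (hy : IsSim Ψ c' y) : IsSim Ψ (c + c') (x + y) := by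
  unfold IsSim at *
  rw [Matrix.transpose_add, add_mul, mul_add, add_smul, ← hx, ← hy]
  abel

theorem sim_smul {Ψ : Matrix ι ι K} {c : K} {x : Matrix ι ι K} (hx : IsSim Ψ c x) (a : K) :
    IsSim Ψ (a * c) (a • x) := by
  unfold IsSim at *
  rw [Matrix.transpose_smul, smul_mul_assoc, mul_smul_comm, ← smul_add, hx, mul_smul]

/-- The infinitesimal isometries. -/
def sp (Ψ : Matrix ι ι K) : Submodule K (Module.End K (ι → K)) where
  carrier := {y | IsSim Ψ 0 (toM y)}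
  zero_mem' := by
    change IsSim Ψ 0 (toM 0)
    rw [show toM (0 : Module.End K (ι → K)) = 0 from map_zero _]
    unfold IsSim
    rw [Matrix.transpose_zero, zero_mul, mul_zero, add_zero, zero_smul]
  add_mem' := by
    intro a b ha hb
    change IsSim Ψ 0 (toM (a + b))
    rw [show toM (a + b) = toM a + toM b from map_add _ _ _]
    have h := sim_add ha hb
    rwa [add_zero] at h
  smul_mem' := by
    intro c a ha
    change IsSim Ψ 0 (toM (c • a))
    rw [show toM (c • a) = c • toM a from map_smul _ _ _]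
    have h := sim_smul ha c
    rwa [mul_zero] at h

/-- The tensor of an operator. -/
def Ltn (Ψ : Matrix ι ι K) : Module.End K (ι → K) →ₗ[K] ((Fin 2 → ι) → K) :=
  tn ∘ₗ (LinearMap.mulRight K (Ψ⁻¹)) ∘ₗ
    (LinearMap.toMatrix' : Module.End K (ι → K) ≃ₗ[K] Matrix ι ι K).toLinearMap

theorem Ltn_apply (Ψ : Matrix ι ι K) (y : Module.End K (ι → K)) :
    Ltn Ψ y = tn (toM y * Ψ⁻¹) := rfl

theorem Ltn_inj {Ψ : Matrix ι ι K} (hΨ : IsUnit Ψ.det) {y z : Module.End K (ι → K)}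
    (h : Ltn Ψ y = Ltn Ψ z) : y = z := by
  rw [Ltn_apply, Ltn_apply] at h
  have h1 := congrArg (fun M => M * Ψ) (tn_inj h)
  rw [mul_assoc, mul_assoc, Matrix.nonsing_inv_mul _ hΨ, mul_one, mul_one] at h1
  exact LinearMap.toMatrix'.injective h1

theorem DT_Ltn {Ψ : Matrix ι ι K} (hΨ : IsUnit Ψ.det) {c : K} {x y : Module.End K (ι → K)}
    (hx : IsSim Ψ c (toM x)) : DT 2 K ι x (Ltn Ψ y) = Ltn Ψ (x * y - y * x + c • y) := by
  rw [DT_apply, Ltn_apply, dt_sim hΨ hx, Ltn_apply,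
    show toM (x * y - y * x + c • y) = toM (x * y - y * x) + c • toM y by
      rw [show toM (x * y - y * x + c • y) = toM (x * y - y * x) + toM (c • y) from map_add _ _ _,
        show toM (c • y) = c • toM y from map_smul _ _ _], toM_br]

/-- **The ideal property.** -/
theorem ideal (hP : PinkGen ω R) (hT : HasProjT 2 R) {Ψ : Matrix ι ι K} (hΨ : IsUnit Ψ.det)
    (halt : Ψ.transpose = -Ψ) (h1 : (1 : Module.End K (ι → K)) ∈ Lg R)
    (hg : ∀ y ∈ Lg R, ∃ c, IsSim Ψ c (toM y)) {x : Module.End K (ι → K)}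
    (hxs : ∃ c, IsSim Ψ c (toM x)) (hx : CommS R x) {y : Module.End K (ι → K)}
    (hy : y ∈ Lg R) : x * y - y * x ∈ Lg R := by
  have h0 : ∀ y ∈ Lg R ⊓ sp Ψ, x * y - y * x ∈ Lg R := by
    intro y hy
    obtain ⟨c, hc⟩ := hxs
    have h2 := key_sym hP hT hx (U := (Lg R ⊓ sp Ψ).map (Ltn Ψ))
      (by
        rintro _ ⟨z, hz, rfl⟩ σ
        exact sym_sim hΨ halt hz.2 σ)
      (by
        rintro q hq _ ⟨z, hz, rfl⟩
        obtain ⟨d, hd⟩ := hg q (hodge_Lg hq)
        rw [DT_Ltn hΨ hd]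
        exact ⟨_, Submodule.add_mem _ ⟨Lg_isLie q (hodge_Lg hq) z hz.1, by
          change IsSim Ψ 0 (toM _)
          rw [toM_br]
          exact sim_br hd hz.2⟩ (Submodule.smul_mem _ _ hz), rfl⟩)
      (u := Ltn Ψ y) ⟨y, hy, rfl⟩
    rw [DT_Ltn hΨ hc] at h2
    obtain ⟨z, hz, h3⟩ := h2
    have h4 := Ltn_inj hΨ h3
    have h5 : x * y - y * x = z - c • y := by rw [h4, add_sub_cancel_right]
    rw [h5]
    exact Submodule.sub_mem _ hz.1 (Submodule.smul_mem _ _ hy.1)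
  obtain ⟨c, hc⟩ := hg y hy
  have h2 := h0 (y - (c / 2) • 1) ⟨Submodule.sub_mem _ hy (Submodule.smul_mem _ _ h1), by
    change IsSim Ψ 0 (toM (y - (c / 2) • 1))
    rw [show toM (y - (c / 2) • (1 : Module.End K (ι → K))) = toM y + -(c / 2) • toM 1 by
      rw [show toM (y - (c / 2) • (1 : Module.End K (ι → K))) =
        toM y - toM ((c / 2) • (1 : Module.End K (ι → K))) from map_sub _ _ _,
        show toM ((c / 2) • (1 : Module.End K (ι → K))) = (c / 2) • toM 1 from map_smul _ _ _,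
        neg_smul, sub_eq_add_neg], toM_one]
    have h3 : IsSim Ψ 2 (1 : Matrix ι ι K) := by
      unfold IsSim
      rw [Matrix.transpose_one, one_mul, mul_one, two_smul]
    have h4 := sim_add hc (sim_smul h3 (-(c / 2)))
    rwa [show c + -(c / 2) * 2 = 0 by ring] at h4⟩
  have h3 : x * (y - (c / 2) • 1) - (y - (c / 2) • 1) * x = x * y - y * x := by
    rw [mul_sub, sub_mul, mul_smul_comm, smul_mul_assoc, mul_one, one_mul]
    abel
  rwa [h3] at h2

variable [IsAlgClosed K]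

/-- **The comparison.** -/
theorem cmpS (hss : HasProj R) (hP : PinkGen ω R) (hT : HasProjT 2 R) {Ψ : Matrix ι ι K}
    (hΨ : IsUnit Ψ.det) (halt : Ψ.transpose = -Ψ) (h1 : (1 : Module.End K (ι → K)) ∈ Lg R)
    (hg : ∀ y ∈ Lg R, ∃ c, IsSim Ψ c (toM y)) {x : Module.End K (ι → K)}
    (hxs : ∃ c, IsSim Ψ c (toM x)) (hx : CommS R x) : ∃ y ∈ Lg R, CR R (x - y) := by
  have hrad := Lg_rad hss hP
  obtain ⟨y, hy, h⟩ := exists_orth hrad x
  refine ⟨y, hy, comm_of_hodge hP fun p hp => ?_⟩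
  have hpg := hodge_Lg hp
  have h2 : p * (x - y) - (x - y) * p ∈ Lg R := by
    have h3 := Submodule.sub_mem _ (Lg_isLie p hpg y hy |> Submodule.neg_mem _)
      (ideal hP hT hΨ halt h1 hg hxs hx hpg)
    have h4 : p * (x - y) - (x - y) * p = -(p * y - y * p) - (x * p - p * x) := by
      rw [mul_sub, sub_mul]
      abel
    rwa [h4]
  have h5 : p * (x - y) - (x - y) * p ∈ rad (Lg R) := by
    refine ⟨h2, fun w hw => ?_⟩
    rw [trace_assoc]
    exact h _ (Lg_isLie w hw p hpg)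
  rw [hrad, Submodule.mem_bot, sub_eq_zero] at h5
  exact h5

end

end Pool.Agent.P8H28.QS
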