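import Pool.Agent.P8H28.QF.Fin2
import Pool.Agent.P8H28.QS.Ide2

/-!
# The theorem for one prime
-/

set_option linter.unusedSectionVars false
set_option linter.deprecated false

namespace Pool.Agent.P8H28.QS

open Module MvPolynomial Pool.Agent.P8H28.SQ
open Pool.Agent.W528.ZC
open Pool.Agent.H204R3.GP (HasProj)
open Pool.Agent.P8H28.QF

noncomputable section

section one

variable {k : Type} [Field k] [CharZero k] [Algebra ℚ k] {ι : Type} [Fintype ι] [DecidableEq ι]
  {Γ : Type} [Group Γ] {Ω : Type} [Field Ω] [Algebra k Ω] [Algebra ℚ Ω] [IsScalarTower ℚ k Ω]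
  {ρ : Γ →* Matrix ι ι k} {χ : Γ →* k} {ψ : Matrix ι ι ℚ} {E C : Set (Matrix ι ι ℚ)}
  {𝔻 : Set (Matrix (Fin 2 → ι) (Fin 2 → ι) ℚ)}

/-- An endomorphism of the symmetric square over the extension field that commutes with the tensor
square is a combination of endomorphisms over `k` that commute with it. -/
theorem comm_ext_sym {κ : Type} [Fintype κ] [DecidableEq κ] (S : Set (Matrix (Fin 2 → κ)
    (Fin 2 → κ) k)) (P : Matrix (Fin 2 → κ) (Fin 2 → κ) Ω) (hP : OnSymmetricSquare P)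
    (hS : ∀ M ∈ S, P * M.map (algebraMap k Ω) = M.map (algebraMap k Ω) * P) :
    P ∈ Submodule.span Ω {Q : Matrix (Fin 2 → κ) (Fin 2 → κ) Ω |
      ∃ N : Matrix (Fin 2 → κ) (Fin 2 → κ) k, (OnSymmetricSquare N ∧ ∀ M ∈ S, N * M = M * N) ∧
        Q = N.map (algebraMap k Ω)} := by
  refine Submodule.span_mono ?_ (mem_span_crd (k := k) P)
  rintro _ ⟨φ, rfl⟩
  refine ⟨crd φ P, ⟨fun σ a b => ?_, fun M hM => ?_⟩, rfl⟩
  · have h1 := hP σ a b
    rw [crd_apply, crd_apply, crd_apply, h1.1, h1.2]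
    exact ⟨rfl, rfl⟩
  · have h1 := congrArg (crd φ) (hS M hM)
    rwa [crd_mul_right, crd_mul_left] at h1

variable [CharZero Ω]

/-- The larger Lie algebra commutes with the endomorphisms of the symmetric square that commute with a subgroup of
finite index. -/
theorem hE_commS (hD : IsFormOfSymmetricSquare ρ 𝔻) {x : Module.End Ω (ι → Ω)}
    (hx : x ∈ hE 2 Ω ψ E 𝔻) : CommS (repM ρ Ω) x := by
  rintro P hP ⟨Δ, hΔ, h⟩
  have h1 := comm_ext_sym (tensRep 2 ρ '' (Δ : Set Γ)) P hP (by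
    rintro _ ⟨s, hs, rfl⟩
    have h2 := h s hs
    rwa [toM_tens] at h2)
  have h2 : P ∈ Submodule.span Ω (mapQ Ω '' 𝔻) := by
    refine (Submodule.span_le.2 ?_ : _ ≤ Submodule.span Ω (mapQ Ω '' 𝔻)) h1
    rintro _ ⟨N, ⟨hN1, hN2⟩, rfl⟩
    refine span_map ((hD N).1 ⟨hN1, Δ, hΔ, fun s hs => ?_⟩)
    rw [tensRep_map]
    exact hN2 _ ⟨s, hs, rfl⟩
  exact comm_span (fun e he => hx.2.2 e he) h2

/-- The Lie algebra is contained in the larger one. -/
theorem Lg_le_hES (hψ : IsUnit ψ.det) (hk : Known Ω ρ χ (mapQ k ψ) (mapQ k '' E))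
    (hD : IsFormOfSymmetricSquare ρ 𝔻) : Lg (repM ρ Ω) ≤ hE 2 Ω ψ E 𝔻 := by
  intro y hy
  rw [mem_hE]
  have hω : ∀ s u v, bf (mapQ Ω ψ) (repM ρ Ω s u) (repM ρ Ω s v) =
      algebraMap k Ω (χ s) * bf (mapQ Ω ψ) u v := by
    intro s u v
    have h1 := congrArg (fun M : Matrix ι ι k => M.map (algebraMap k Ω)) (hk.form s)
    simp only [Matrix.map_mul, Matrix.transpose_map, mapQ_map] at h1
    rw [repM_apply, Matrix.toLin'_apply, Matrix.toLin'_apply, bf_mul, h1, ← bf_smul]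
    congr 3
    ext i j
    simp only [Matrix.map_apply, Matrix.smul_apply, smul_eq_mul, map_mul]
    congr 1
    exact congrFun (congrFun (mapQ_map (k := k) (Ω := Ω) ψ) i) j
  refine ⟨?_, ?_, ?_⟩
  · by_cases h0 : bf (mapQ Ω ψ) = 0
    · refine ⟨0, ?_⟩
      have h2 : mapQ Ω ψ = 0 := bf_inj fun u v => by
        rw [h0, bf_apply, Matrix.zero_mulVec, dotProduct_zero]
        rfl
      rw [h2, mul_zero, zero_mul, add_zero, smul_zero]
    · obtain ⟨c, hc⟩ := Lg_form _ (χ := fun s => algebraMap k Ω (χ s)) hω h0 hy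
      refine ⟨c, bf_inj fun u v => ?_⟩
      have h4 := bf_mul (mapQ Ω ψ) (toM y) 1 u v
      have h5 := bf_mul (mapQ Ω ψ) 1 (toM y) u v
      rw [Matrix.one_mulVec, mul_one, toM_vec] at h4
      rw [Matrix.one_mulVec, Matrix.transpose_one, one_mul, toM_vec] at h5
      rw [bf_add, bf_smul, ← hc, h4, h5]
  · rintro _ ⟨e, he, rfl⟩
    obtain ⟨Δ, hΔ, h⟩ := hk.endo
    have h1 := Lg_comm hy (P := Matrix.toLin' (mapQ Ω e)) ⟨Δ, hΔ, fun s hs => by
      rw [repM_apply, ← mapQ_map (k := k)]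
      have h2 := congrArg (fun M : Matrix ι ι k => Matrix.toLin' (M.map (algebraMap k Ω)))
        (h s hs _ ⟨e, he, rfl⟩)
      simp only [Matrix.map_mul, Matrix.toLin'_mul] at h2
      exact h2⟩
    have h2 := congrArg toM h1
    rw [toM_mul, toM_mul, toM_toLin] at h2
    exact h2.symm
  · rintro _ ⟨P, hP, rfl⟩
    obtain ⟨-, Δ, hΔ, h⟩ := (hD (mapQ k P)).2 (Submodule.subset_span ⟨P, hP, rfl⟩)
    refine Lg_tens_comm hy ⟨Δ, hΔ, fun s hs => ?_⟩
    have h1 := h s hs
    rw [tensRep_map] at h1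
    rw [toM_tens, ← mapQ_map (k := k), ← Matrix.map_mul, h1, Matrix.map_mul]

variable [IsAlgClosed Ω] [Algebra.IsAlgebraic k Ω]

/-- The Lie algebra has the rational form. -/
theorem Lg_spanS (halt : ψ.transpose = -ψ) (hψ : IsUnit ψ.det)
    (hk : Known Ω ρ χ (mapQ k ψ) (mapQ k '' E)) (hom : ∀ c : Ω, c ≠ 0 → InIdentityComponent ρ (c • (1 : Matrix ι ι Ω)))
    (hss2 : SemiM (tensRep 2 ρ)) (hC : IsFormOfCentre Ω ρ C)
    (hD : IsFormOfSymmetricSquare ρ 𝔻) :
    {x : Matrix ι ι Ω | ∃ y ∈ Lg (repM ρ Ω), x = toM y} =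
      ((Submodule.span Ω (mapQ Ω '' gQ 2 ψ E C 𝔻) : Submodule Ω _) : Set _) := by
  have hψ' : IsUnit (mapQ Ω ψ).det := by
    have h1 := (algebraMap ℚ Ω).map_det ψ
    rw [RingHom.mapMatrix_apply] at h1
    unfold mapQ
    rw [← h1]
    exact hψ.map _
  have halt' : (mapQ Ω ψ).transpose = -mapQ Ω ψ := by
    unfold mapQ
    rw [← Matrix.transpose_map, halt]
    ext i j
    simp only [Matrix.map_apply, Matrix.neg_apply, map_neg]
  have hP : PinkGen (bf (mapQ Ω ψ)) (repM ρ Ω) := by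
    have h1 := hodge_iff ρ _ hk.pink
    rwa [mapQ_map] at h1
  have hss : HasProj (repM ρ Ω) := hasProj_repM ρ hk.semi
  have h1 : (1 : Module.End Ω (ι → Ω)) ∈ Lg (repM ρ Ω) := by
    refine Lg_idem hID (one_mul 1) fun c hc => ?_
    have h2 := (inIC_iff ρ _).1 (hom c hc)
    rw [map_smul, Matrix.toLin'_one] at h2
    rw [sub_self, zero_add]
    exact h2
  have hgh := Lg_le_hES hψ hk hD
  have hEc : ∀ x ∈ hE 2 Ω ψ E 𝔻, ∀ Z, CR (repM ρ Ω) Z → x * Z = Z * x := by
    intro x hx Z hZ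
    have h2 := comm_span (fun e he => hx.2.1 e he) (CR_span hk hZ)
    apply LinearMap.toMatrix'.injective
    change toM (x * Z) = toM (Z * x)
    rw [toM_mul, toM_mul]
    exact h2.symm
  have hbr := fun x x' hx hx' => bracket_mem (x := x) (x' := x') hgh
    (fun x hx => cmpS hss hP (hasProjT hss2) hψ' halt' h1 (fun y hy => (hgh hy).1) hx.1
      (hE_commS hD hx)) hEc hx hx'
  have key : ∀ n ∈ brS (Lg (repM ρ Ω)), toM n ∈
      Submodule.span Ω (mapQ Ω '' gQ 2 ψ E C 𝔻) := by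
    intro n hn
    unfold brS at hn
    induction hn using Submodule.span_induction with
    | mem n hn =>
      obtain ⟨a, ha, b, hb, rfl⟩ := hn
      rw [show toM (a * b - b * a) = toM a * toM b - toM b * toM a by
        rw [← toM_mul, ← toM_mul]
        exact map_sub _ _ _]
      exact Submodule.span_mono (Set.image_mono Set.subset_union_left)
        (br_span (hgh ha) (hgh hb))
    | zero =>
      rw [show toM (0 : Module.End Ω (ι → Ω)) = 0 from map_zero _]
      exact Submodule.zero_mem _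
    | add a b _ _ ha hb =>
      rw [show toM (a + b) = toM a + toM b from map_add _ _ _]
      exact Submodule.add_mem _ ha hb
    | smul c a _ ha =>
      rw [show toM (c • a) = c • toM a from map_smul _ _ _]
      exact Submodule.smul_mem _ _ ha
  apply Set.Subset.antisymm
  · rintro _ ⟨y, hy, rfl⟩
    obtain ⟨n, hn, z, hz, hzc, rfl⟩ := reductive hss hP hy
    rw [show toM (n + z) = toM n + toM z from map_add _ _ _]
    refine Submodule.add_mem _ (key n hn) ?_
    refine Submodule.span_mono (Set.image_mono Set.subset_union_right) ?_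
    refine (hC (toM z)).1 ⟨?_, ?_⟩
    · rw [inLie_iff, toLin_toM]
      exact hz
    · rw [virt_iff, toLin_toM]
      exact comm_of_hodge hP fun p hp => (hzc p (hodge_Lg hp)).symm
  · intro x hx
    have h2 : x ∈ (Lg (repM ρ Ω)).map
        (LinearMap.toMatrix' : Module.End Ω (ι → Ω) ≃ₗ[Ω] Matrix ι ι Ω).toLinearMap := by
      refine (Submodule.span_le.2 ?_ : Submodule.span Ω (mapQ Ω '' gQ 2 ψ E C 𝔻) ≤ _) hx
      rintro _ ⟨z, hz, rfl⟩
      refine ⟨Matrix.toLin' (mapQ Ω z), ?_, toM_toLin _⟩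
      rcases hz with ⟨a, ha, b, hb, rfl⟩ | hz
      · have h3 : Matrix.toLin' (mapQ Ω (a * b - b * a)) =
            Matrix.toLin' (mapQ Ω a) * Matrix.toLin' (mapQ Ω b) -
              Matrix.toLin' (mapQ Ω b) * Matrix.toLin' (mapQ Ω a) := by
          unfold mapQ
          rw [Matrix.map_sub _ (map_sub _), Matrix.map_mul, Matrix.map_mul, map_sub,
            Matrix.toLin'_mul, Matrix.toLin'_mul]
          rfl
        rw [h3]
        refine brS_le Lg_isLie (hbr _ _ ?_ ?_)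
        · rw [mem_hE, toM_toLin]
          exact mapQ_hM ha
        · rw [mem_hE, toM_toLin]
          exact mapQ_hM hb
      · have h3 := (hC (mapQ Ω z)).2 (Submodule.subset_span ⟨z, hz, rfl⟩)
        exact (inLie_iff ρ _).1 h3.1
    obtain ⟨y, hy, rfl⟩ := h2
    exact ⟨y, hy, rfl⟩

omit [IsAlgClosed Ω] [Algebra.IsAlgebraic k Ω] in
/-- If the centre is self-adjoint, the centre of the Lie algebra consists of scalars. -/
theorem centre_saS (hψ : IsUnit ψ.det) (hk : Known Ω ρ χ (mapQ k ψ) (mapQ k '' E))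
    (hom : ∀ c : Ω, c ≠ 0 → InIdentityComponent ρ (c • (1 : Matrix ι ι Ω)))
    (hD : IsFormOfSymmetricSquare ρ 𝔻) (hsa : SelfAdjointCentre ψ E) :
    IsFormOfCentre Ω ρ ({1} : Set (Matrix ι ι ℚ)) := by
  have hψ' : IsUnit (mapQ Ω ψ).det := by
    have h1 := (algebraMap ℚ Ω).map_det ψ
    rw [RingHom.mapMatrix_apply] at h1
    unfold mapQ
    rw [← h1]
    exact hψ.map _
  have hone : mapQ Ω (1 : Matrix ι ι ℚ) = 1 := by
    unfold mapQ
    rw [Matrix.map_one _ (map_zero _) (map_one _)]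
  have h1 : (1 : Module.End Ω (ι → Ω)) ∈ Lg (repM ρ Ω) := by
    refine Lg_idem hID (one_mul 1) fun c hc => ?_
    have h2 := (inIC_iff ρ _).1 (hom c hc)
    rw [map_smul, Matrix.toLin'_one] at h2
    rw [sub_self, zero_add]
    exact h2
  intro x
  rw [inLie_iff, virt_iff, Set.image_singleton, hone, Submodule.mem_span_singleton]
  constructor
  · rintro ⟨hx, hx2⟩
    have h2 := CR_span hk hx2
    rw [toM_toLin] at h2
    obtain ⟨⟨c, hc⟩, h3, -⟩ := Lg_le_hES hψ hk hD hx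
    change (toM (Matrix.toLin' x)).transpose * mapQ Ω ψ + mapQ Ω ψ * toM (Matrix.toLin' x) = _
      at hc
    change ∀ e ∈ mapQ Ω '' E, e * toM (Matrix.toLin' x) = toM (Matrix.toLin' x) * e at h3
    rw [toM_toLin] at hc h3
    have h4 : ∀ φ : Ω →ₗ[ℚ] ℚ, crd φ x ∈ Submodule.span ℚ E := crd_span h2
    have h5 : x.transpose * mapQ Ω ψ = mapQ Ω ψ * x := by
      refine sub_eq_zero.1 (crd_zero fun φ => ?_)
      have h6 := hsa _ (h4 φ) fun e he => by
        have h7 := congrArg (crd φ) (h3 _ ⟨e, he, rfl⟩)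
        unfold mapQ at h7
        rwa [crd_mul_left, crd_mul_right] at h7
      have h8 : crd φ (x.transpose * mapQ Ω ψ) = crd φ (mapQ Ω ψ * x) := by
        unfold mapQ
        rw [crd_mul_left, crd_mul_right, crd_transpose]
        exact h6
      ext i j
      have h9 := congrFun (congrFun h8 i) j
      rw [crd_apply, crd_apply] at h9
      rw [crd_apply, Matrix.sub_apply, map_sub, h9, sub_self]
      rfl
    refine ⟨c / 2, ?_⟩
    rw [h5, ← two_smul Ω] at hc
    have h6 : mapQ Ω ψ * x = mapQ Ω ψ * ((c / 2) • (1 : Matrix ι ι Ω)) := by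
      rw [mul_smul_comm, mul_one]
      have h7 := congrArg (fun M => (2 : Ω)⁻¹ • M) hc
      rw [smul_smul, smul_smul, inv_mul_cancel₀ two_ne_zero, one_smul] at h7
      rw [h7]
      congr 1
      ring
    have h7 := congrArg (fun M => (mapQ Ω ψ)⁻¹ * M) h6
    rw [← mul_assoc, ← mul_assoc, Matrix.nonsing_inv_mul _ hψ', one_mul, one_mul] at h7
    exact h7.symm
  · rintro ⟨c, rfl⟩
    rw [map_smul, Matrix.toLin'_one]
    refine ⟨Submodule.smul_mem _ _ h1, ⊤, inferInstance, fun s _ => ?_⟩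
    refine LinearMap.ext fun v => ?_
    change c • (repM ρ Ω s v) = repM ρ Ω s (c • v)
    rw [map_smul]

/-- **The theorem for one prime.** -/
theorem form_oneS (halt : ψ.transpose = -ψ) (hψ : IsUnit ψ.det)
    (hk : Known Ω ρ χ (mapQ k ψ) (mapQ k '' E)) (hom : ∀ c : Ω, c ≠ 0 → InIdentityComponent ρ (c • (1 : Matrix ι ι Ω)))
    (hss2 : SemiM (tensRep 2 ρ)) (hC : IsFormOfCentre Ω ρ C)
    (hD : IsFormOfSymmetricSquare ρ 𝔻) (g : Matrix ι ι Ω) :
    InIdentityComponent ρ g ↔ IsZeroOf ((Jet (gQ 2 ψ E C 𝔻) : Submodule ℚ _) : Set _) g := by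
  have hP : PinkGen (bf (mapQ Ω ψ)) (repM ρ Ω) := by
    have h1 := hodge_iff ρ _ hk.pink
    rwa [mapQ_map] at h1
  rw [inIC_iff]
  unfold InZ IsZeroOf
  rw [toM_toLin, I0_eq_Jet hP, Lg_spanS halt hψ hk hom hss2 hC hD, Jet_span]
  exact zero_iff Ω _ g

end one

end

end Pool.Agent.P8H28.QS
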