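import Pool.Agent.P8H28.QF.Cmp
import Pool.Agent.P8H28.QS.Defs

/-!
# The Lie algebra of the monodromy group is an ideal of the larger one
-/

set_option linter.unusedSectionVars false

namespace Pool.Agent.P8H28.QS

open Module MvPolynomial Pool.Agent.P8H28.SQ Pool.Agent.P8H28.QF
open Pool.Agent.W528.ZC (toM toM_mul toM_one I0 mem_I0 InZ Lg WHodge PinkGen Lg_comm CR)
open Pool.Agent.H204R3.GP (HasProj)

noncomputable section

variable {K : Type} [Field K] {ι : Type} [Fintype ι] [DecidableEq ι]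

/-- The tensor with two indices given by a matrix. -/
def tn : Matrix ι ι K →ₗ[K] ((Fin 2 → ι) → K) where
  toFun M := fun a => M (a 0) (a 1)
  map_add' _ _ := rfl
  map_smul' _ _ := rfl

theorem tn_apply (M : Matrix ι ι K) (a : Fin 2 → ι) : tn M a = M (a 0) (a 1) := rfl

theorem tn_inj {M N : Matrix ι ι K} (h : tn M = tn N) : M = N := by
  ext i j
  exact congrFun h ![i, j]

theorem dt_tn (x M : Matrix ι ι K) : dt 2 x (tn M) = tn (x * M + M * x.transpose) := by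
  funext a
  rw [dt_eq, Fin.sum_univ_two, LinearMap.add_apply, Pi.add_apply, dk_apply, dk_apply, tn_apply,
    Matrix.add_apply, Matrix.mul_apply, Matrix.mul_apply]
  congr 1
  refine Finset.sum_congr rfl fun j _ => ?_
  change x (a 1) j * M (a 0) j = M (a 0) j * x.transpose j (a 1)
  rw [Matrix.transpose_apply, mul_comm]

/-- The symmetrization. -/
def sym (m : ℕ) (K ι : Type) [Field K] : Module.End K ((Fin m → ι) → K) :=
  (m.factorial : K)⁻¹ • ∑ σ : Equiv.Perm (Fin m), pm K ι σ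

variable {m : ℕ}

theorem sym_pm (σ : Equiv.Perm (Fin m)) : sym m K ι * pm K ι σ = sym m K ι := by
  unfold sym
  rw [smul_mul_assoc, Finset.sum_mul]
  congr 1
  exact Fintype.sum_equiv (Equiv.mulRight σ) _ _ fun τ => by rw [pm_mul, Equiv.coe_mulRight]

theorem sym_eq [CharZero K] {u : (Fin m → ι) → K} (hu : ∀ σ, pm K ι σ u = u) :
    sym m K ι u = u := by
  unfold sym
  rw [LinearMap.smul_apply, LinearMap.sum_apply, Finset.sum_congr rfl fun σ _ => hu σ,
    Finset.sum_const, Finset.card_univ, Fintype.card_perm, Fintype.card_fin,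
    ← Nat.cast_smul_eq_nsmul K, ← mul_smul,
    inv_mul_cancel₀ (Nat.cast_ne_zero.2 m.factorial_ne_zero), one_smul]

theorem tens_sym (M : Matrix ι ι K) :
    Matrix.toLin' (tens m M) * sym m K ι = sym m K ι * Matrix.toLin' (tens m M) := by
  unfold sym
  rw [mul_smul_comm, smul_mul_assoc, Finset.mul_sum, Finset.sum_mul]
  congr 1
  exact Finset.sum_congr rfl fun σ _ => tens_pm M σ

theorem sym_of_proj {U : Submodule K ((Fin 2 → ι) → K)} (hU : ∀ u ∈ U, ∀ σ, pm K ι σ u = u)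
    {Q : Module.End K ((Fin 2 → ι) → K)} (hQ : ∀ v, Q v ∈ U) :
    OnSymmetricSquare (LinearMap.toMatrix' (Q * sym 2 K ι)) := by
  intro σ a b
  constructor
  · rw [LinearMap.toMatrix'_apply, LinearMap.toMatrix'_apply]
    exact congrFun (hU _ (hQ (sym 2 K ι (Pi.single b 1))) σ) a
  · rw [LinearMap.toMatrix'_apply, LinearMap.toMatrix'_apply]
    have h1 : (Pi.single (b ∘ σ) 1 : (Fin 2 → ι) → K) = pm K ι σ⁻¹ (Pi.single b 1) := by
      funext a
      rw [pm_apply, Pi.single_apply, Pi.single_apply]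
      have h2 : a = b ∘ σ ↔ a ∘ (σ⁻¹ : Equiv.Perm (Fin 2)) = b := by
        constructor
        · rintro rfl
          funext i
          simp only [Function.comp_apply]
          rw [show σ (σ⁻¹ i) = i from σ.apply_symm_apply i]
        · rintro rfl
          funext i
          simp only [Function.comp_apply]
          rw [show σ⁻¹ (σ i) = i from σ.symm_apply_apply i]
      by_cases h3 : a = b ∘ σ
      · rw [if_pos h3, if_pos (h2.1 h3)]
      · rw [if_neg h3, if_neg fun h4 => h3 (h2.2 h4)]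
    rw [h1, ← Module.End.mul_apply, mul_assoc, sym_pm]

variable [CharZero K] {Γ : Type} [Group Γ] {R : Representation K Γ (ι → K)}
  {ω : (ι → K) →ₗ[K] (ι → K) →ₗ[K] K}

/-- The operator `x` commutes, on the tensors, with all endomorphisms of the symmetric square that
commute with a subgroup of finite index. -/
def CommS (R : Representation K Γ (ι → K)) (x : Module.End K (ι → K)) : Prop :=
  ∀ P : Matrix (Fin 2 → ι) (Fin 2 → ι) K, OnSymmetricSquare P →
    (∃ Δ : Subgroup Γ, Δ.FiniteIndex ∧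
      ∀ g ∈ Δ, P * tens 2 (toM (R g)) = tens 2 (toM (R g)) * P) →
    P * LinearMap.toMatrix' (dt 2 (toM x)) = LinearMap.toMatrix' (dt 2 (toM x)) * P

/-- A space of symmetric tensors which is stable under the weak Hodge elements is stable under
`x`. -/
theorem key_sym (hP : PinkGen ω R) (hT : HasProjT 2 R) {x : Module.End K (ι → K)}
    (hx : CommS R x) {U : Submodule K ((Fin 2 → ι) → K)} (hU : ∀ u ∈ U, ∀ σ, pm K ι σ u = u)
    (hW : ∀ q, WHodge ω R q → ∀ w ∈ U, DT 2 K ι q w ∈ U) {u : (Fin 2 → ι) → K}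
    (hu : u ∈ U) : DT 2 K ι x u ∈ U := by
  obtain ⟨Δ, hΔ, h⟩ := stable_tens hP 2
  obtain ⟨Q, hQ1, hQ2, hQ3⟩ := hT Δ hΔ _ (h U hW)
  have h2 := hx _ (sym_of_proj hU hQ1) ⟨Δ, hΔ, fun g hg => by
    apply Matrix.toLin'.injective
    rw [Matrix.toLin'_mul, Matrix.toLin'_mul, Matrix.toLin'_toMatrix']
    change Q * sym 2 K ι * Matrix.toLin' _ = Matrix.toLin' _ * (Q * sym 2 K ι)
    rw [mul_assoc, ← tens_sym, ← mul_assoc, ← mul_assoc]
    congr 1
    refine LinearMap.ext fun v => ?_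
    rw [Module.End.mul_apply, Module.End.mul_apply, Matrix.toLin'_apply, Matrix.toLin'_apply]
    exact hQ3 g hg v⟩
  have h3 := congrArg Matrix.toLin' h2
  rw [Matrix.toLin'_mul, Matrix.toLin'_mul, Matrix.toLin'_toMatrix',
    Matrix.toLin'_toMatrix'] at h3
  have h4 := congrArg (fun f : Module.End K ((Fin 2 → ι) → K) => f u) h3
  change Q (sym 2 K ι (dt 2 (toM x) u)) = dt 2 (toM x) (Q (sym 2 K ι u)) at h4
  rw [sym_eq (hU u hu), hQ2 u hu] at h4
  rw [DT_apply, ← h4]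
  exact hQ1 _

/-- `x` is an infinitesimal similitude with the factor `c` of the form with the matrix `Ψ`. -/
def IsSim (Ψ : Matrix ι ι K) (c : K) (x : Matrix ι ι K) : Prop :=
  x.transpose * Ψ + Ψ * x = c • Ψ

theorem sim_inv {Ψ : Matrix ι ι K} (hΨ : IsUnit Ψ.det) {c : K} {x : Matrix ι ι K}
    (hx : IsSim Ψ c x) : Ψ⁻¹ * x.transpose = c • Ψ⁻¹ - x * Ψ⁻¹ := by
  have h1 : Ψ⁻¹ * (x.transpose * Ψ + Ψ * x) * Ψ⁻¹ = Ψ⁻¹ * (c • Ψ) * Ψ⁻¹ := by rw [hx]
  have e1 : Ψ * Ψ⁻¹ = 1 := Matrix.mul_nonsing_inv _ hΨ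
  have e2 : Ψ⁻¹ * Ψ = 1 := Matrix.nonsing_inv_mul _ hΨ
  rw [mul_add, add_mul, ← mul_assoc, mul_assoc _ Ψ Ψ⁻¹, e1, mul_one, ← mul_assoc, e2, one_mul,
    mul_smul_comm, e2, smul_mul_assoc, one_mul] at h1
  rw [eq_sub_iff_add_eq]
  exact h1

theorem dt_sim {Ψ : Matrix ι ι K} (hΨ : IsUnit Ψ.det) {c : K} {x y : Matrix ι ι K}
    (hx : IsSim Ψ c x) : dt 2 x (tn (y * Ψ⁻¹)) = tn ((x * y - y * x + c • y) * Ψ⁻¹) := by
  rw [dt_tn, mul_assoc y, sim_inv hΨ hx]
  congr 1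
  rw [mul_sub, mul_smul_comm, add_mul, sub_mul, smul_mul_assoc, ← mul_assoc, ← mul_assoc]
  abel

theorem sym_sim {Ψ : Matrix ι ι K} (hΨ : IsUnit Ψ.det) (halt : Ψ.transpose = -Ψ)
    {y : Matrix ι ι K} (hy : IsSim Ψ 0 y) (σ : Equiv.Perm (Fin 2)) :
    pm K ι σ (tn (y * Ψ⁻¹)) = tn (y * Ψ⁻¹) := by
  have h1 : (y * Ψ⁻¹).transpose = y * Ψ⁻¹ := by
    have h2 := sim_inv hΨ hy
    rw [zero_smul, zero_sub] at h2
    rw [Matrix.transpose_mul, Matrix.transpose_nonsing_inv, halt]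
    have h3 : (-Ψ)⁻¹ = -Ψ⁻¹ := by
      apply Matrix.inv_eq_left_inv
      rw [neg_mul_neg, Matrix.nonsing_inv_mul _ hΨ]
    rw [h3, neg_mul, h2, neg_neg]
  funext a
  rw [pm_apply, tn_apply, tn_apply, Function.comp_apply, Function.comp_apply]
  rcases (by decide : ∀ σ : Equiv.Perm (Fin 2), (σ 0 = 0 ∧ σ 1 = 1) ∨ (σ 0 = 1 ∧ σ 1 = 0)) σ with
    ⟨h0, h1'⟩ | ⟨h0, h1'⟩
  · rw [h0, h1']
  · rw [h0, h1']
    exact congrFun (congrFun h1 (a 0)) (a 1)

end

end Pool.Agent.P8H28.QS
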